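import Pool.Agent.V11231.CES.Final

/-!
# Coalition-exchange-stable matchings in stable marriage instances: NP-completeness

The reduction is from 3SAT. For every position `i` in a clause there are two men `x i`, `y i` and
two women `a i`, `b i`. The man `x i` ranks `b i`, then `a j` for the next position `j` of the
clause, then `a i`, then the others; `y i` ranks `b i`, `a i`, then the others. The woman `a i`
ranks `x i`, then the `y j` of all positions `j` with the opposite literal, then `y i`, then the
others, and last of all the man `x j` of the previous position `j` of the clause; `b i` ranks
`x i`, `y i`, then the others. A coalition-exchange-stable matching matches all agents inside their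
gadgets; the position is true if `x i` is matched with `b i`.
-/

namespace Pool.Agent.Results.MP_bd0f13_lc.CoalitionExchangeNPComplete

open Pool.Agent.NPC Pool.Agent.V11231.CES

/-- (1) Every language in `NP` has a polynomial-time many-one reduction to the problem whether a
stable marriage instance (complete strict lists, `n` men and `n` women) has a
coalition-exchange-stable matching. (2) The decision problem is NP-complete. (3) If some
polynomial-time algorithm solves the search problem (on each instance it outputs a
coalition-exchange-stable matching, or reports correctly that there is none), then `P = NP`. -/
theorem result : (∀ L : Set (List Bool), InNP L → ∃ f : List Bool → Prefs,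
      PolyTime (fun x => bits (f x)) ∧ (∀ x, IsInst (f x)) ∧
      ∀ x, x ∈ L ↔ ∃ M, CoalitionExchangeStable (f x) M) ∧
    (NPHard (lang CES) ∧ InNP (lang CES)) ∧
    ((∃ A, PolyTime A ∧ Solves A) → ∀ L : Set (List Bool), InNP L → InP L) :=
  Pool.Agent.V11231.CES.main

end Pool.Agent.Results.MP_bd0f13_lc.CoalitionExchangeNPComplete
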